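import Mathlib

/-!
# Noetherian group rings: the finite subgroups are bounded (given Foelner sets)
-/

namespace Pool.Agent.NR.H89

open scoped Pointwise

noncomputable section

variable {G : Type*} [Group G]

/-- The group has Foelner sets. -/
def Foel (G : Type*) [Group G] [DecidableEq G] : Prop :=
  ∀ (S : Finset G) (ε : ℚ), 0 < ε → ∃ F : Finset G, F.Nonempty ∧
    ((F * S).card : ℚ) ≤ (1 + ε) * F.card

/-- The rational group ring. -/
abbrev QG (G : Type*) [Group G] := MonoidAlgebra ℚ G

/-- The translates of `y` by the elements of `F`, as a linear map. -/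
def ph (F : Finset G) (y : QG G) : (F → ℚ) →ₗ[ℚ] QG G :=
  Fintype.linearCombination ℚ fun g : F => MonoidAlgebra.single (g : G) (1 : ℚ) * y

/-- The dimension of the space spanned by the translates. -/
def rk (F : Finset G) (y : QG G) : ℕ := Module.finrank ℚ (LinearMap.range (ph F y))

/-- The element of the group ring with given coefficients. -/
def el (F : Finset G) (c : F → ℚ) : QG G := ∑ g : F, MonoidAlgebra.single (g : G) (c g)

theorem ph_apply (F : Finset G) (y : QG G) (c : F → ℚ) : ph F y c = el F c * y := by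
  rw [ph, Fintype.linearCombination_apply, el, Finset.sum_mul]
  refine Finset.sum_congr rfl fun g _ => ?_
  rw [← smul_mul_assoc, MonoidAlgebra.smul_single, smul_eq_mul, mul_one]

theorem rk_add_ker (F : Finset G) (y : QG G) :
    rk F y + Module.finrank ℚ (LinearMap.ker (ph F y)) = F.card := by
  have := LinearMap.finrank_range_add_finrank_ker (ph F y)
  rw [Module.finrank_pi, Fintype.card_coe] at this
  exact this

theorem rk_le_of_ker {F : Finset G} {y z : QG G} (h : ∀ a : QG G, a * y = 0 → a * z = 0) :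
    rk F z ≤ rk F y := by
  have h1 : LinearMap.ker (ph F y) ≤ LinearMap.ker (ph F z) := by
    intro c hc
    rw [LinearMap.mem_ker, ph_apply] at hc ⊢
    exact h _ hc
  have h2 := Submodule.finrank_mono h1
  have h3 := rk_add_ker F y
  have h4 := rk_add_ker F z
  omega

theorem range_ph (F : Finset G) (y : QG G) : LinearMap.range (ph F y) =
    Submodule.span ℚ ((fun g => MonoidAlgebra.single g (1 : ℚ) * y) '' (F : Set G)) := by
  rw [ph, Fintype.range_linearCombination]
  congr 1
  ext x
  simp

theorem rk_mul_le [DecidableEq G] (F : Finset G) (r y : QG G) :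
    rk F (r * y) ≤ rk (F * r.coeff.support) y := by
  refine Submodule.finrank_mono ?_
  rw [range_ph, range_ph, Submodule.span_le]
  rintro _ ⟨g, hg, rfl⟩
  change MonoidAlgebra.single g (1 : ℚ) * (r * y) ∈ Submodule.span ℚ _
  have h1 : MonoidAlgebra.single g (1 : ℚ) * (r * y) =
      ∑ h ∈ r.coeff.support, r.coeff h • (MonoidAlgebra.single (g * h) (1 : ℚ) * y) := by
    conv_lhs => rw [← MonoidAlgebra.sum_coeff_single r]
    rw [Finsupp.sum, Finset.sum_mul, Finset.mul_sum]
    refine Finset.sum_congr rfl fun h _ => ?_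
    rw [← mul_assoc, MonoidAlgebra.single_mul_single, ← smul_mul_assoc, MonoidAlgebra.smul_single,
      one_mul, smul_eq_mul, mul_one]
  rw [h1]
  refine Submodule.sum_mem _ fun h hh => Submodule.smul_mem _ _ (Submodule.subset_span ?_)
  exact ⟨g * h, Finset.mem_coe.2 (Finset.mul_mem_mul hg hh), rfl⟩

theorem rk_mono {F F' : Finset G} (h : F ⊆ F') (y : QG G) : rk F y ≤ rk F' y := by
  refine Submodule.finrank_mono ?_
  rw [range_ph, range_ph]
  exact Submodule.span_mono (Set.image_mono (Finset.coe_subset.2 h))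

/-- The translates of `y` are many: the constant is at most `C`. -/
def Big [DecidableEq G] (C : ℕ) (y : QG G) : Prop :=
  ∃ B : Finset G, ∀ F : Finset G, F.card ≤ C * rk (F * B) y

theorem Big.of_mul [DecidableEq G] {C : ℕ} {r y : QG G} (h : Big C (r * y)) : Big C y := by
  obtain ⟨B, hB⟩ := h
  refine ⟨B * r.coeff.support, fun F => (hB F).trans (Nat.mul_le_mul_left _ ?_)⟩
  rw [← mul_assoc]
  exact rk_mul_le _ r y

theorem Big.of_ker [DecidableEq G] {C : ℕ} {y z : QG G} (h : ∀ a : QG G, a * y = 0 → a * z = 0)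
    (hz : Big C z) : Big C y := by
  obtain ⟨B, hB⟩ := hz
  exact ⟨B, fun F => (hB F).trans (Nat.mul_le_mul_left _ (rk_le_of_ker h))⟩

theorem Big.mono [DecidableEq G] {C C' : ℕ} (h : C ≤ C') {y : QG G} (hy : Big C y) : Big C' y := by
  obtain ⟨B, hB⟩ := hy
  exact ⟨B, fun F => (hB F).trans (Nat.mul_le_mul_right _ h)⟩

/-- Disjoint translates. -/
theorem exists_disjoint [DecidableEq G] (S F : Finset G) (hS : S.Nonempty) :
    ∃ F' ⊆ F, (∀ g ∈ F', ∀ h ∈ F', ∀ s ∈ S, ∀ t ∈ S, g * s = h * t → g = h) ∧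
      F.card ≤ F'.card * (S.card * S.card) := by
  classical
  let P : Finset (Finset G) := F.powerset.filter fun F' =>
    ∀ g ∈ F', ∀ h ∈ F', ∀ s ∈ S, ∀ t ∈ S, g * s = h * t → g = h
  have hP : P.Nonempty := ⟨∅, by simp [P]⟩
  obtain ⟨F', hF', hmax⟩ := P.exists_max_image Finset.card hP
  obtain ⟨h1, h2⟩ := Finset.mem_filter.1 hF'
  rw [Finset.mem_powerset] at h1
  refine ⟨F', h1, h2, ?_⟩
  have hsub : F ⊆ F' * (S * S⁻¹) := by
    intro x hx
    by_cases hxF : x ∈ F'
    · obtain ⟨s, hs⟩ := hS
      have : x = x * (s * s⁻¹) := by simp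
      rw [this]
      exact Finset.mul_mem_mul hxF (Finset.mul_mem_mul hs (Finset.inv_mem_inv hs))
    · by_contra hcon
      have hins : insert x F' ∈ P := by
        refine Finset.mem_filter.2 ⟨Finset.mem_powerset.2 (Finset.insert_subset hx h1), ?_⟩
        intro g hg h hh s hs t ht heq
        rw [Finset.mem_insert] at hg hh
        rcases hg with rfl | hg <;> rcases hh with rfl | hh
        · rfl
        · exfalso
          apply hcon
          have : g = h * (t * s⁻¹) := by rw [← mul_assoc, ← heq, mul_inv_cancel_right]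
          rw [this]
          exact Finset.mul_mem_mul hh (Finset.mul_mem_mul ht (Finset.inv_mem_inv hs))
        · exfalso
          apply hcon
          have : h = g * (s * t⁻¹) := by rw [← mul_assoc, heq, mul_inv_cancel_right]
          rw [this]
          exact Finset.mul_mem_mul hg (Finset.mul_mem_mul hs (Finset.inv_mem_inv ht))
        · exact h2 g hg h hh s hs t ht heq
      have := hmax _ hins
      rw [Finset.card_insert_of_notMem hxF] at this
      omega
  calc F.card ≤ (F' * (S * S⁻¹)).card := Finset.card_le_card hsub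
    _ ≤ F'.card * (S * S⁻¹).card := Finset.card_mul_le
    _ ≤ F'.card * (S.card * S.card) := by
        refine Nat.mul_le_mul_left _ ?_
        refine Finset.card_mul_le.trans ?_
        rw [Finset.card_inv]

/-- Every nonzero element has many translates. -/
theorem card_le_rk [DecidableEq G] (F : Finset G) {y : QG G} (hy : y ≠ 0) :
    F.card ≤ (y.coeff.support.card * y.coeff.support.card) * rk F y := by
  classical
  have hne : y.coeff.support.Nonempty := by
    rw [Finsupp.support_nonempty_iff]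
    exact fun h => hy (MonoidAlgebra.coeff_eq_zero.1 h)
  obtain ⟨F', h1, h2, h3⟩ := exists_disjoint y.coeff.support F hne
  obtain ⟨s, hs⟩ := hne
  have hker : Module.finrank ℚ (LinearMap.ker (ph F' y)) = 0 := by
    have : LinearMap.ker (ph F' y) = ⊥ := by
      rw [LinearMap.ker_eq_bot']
      intro c hc
      rw [ph_apply, el, Finset.sum_mul] at hc
      funext g
      have h4 := congrArg (fun z : QG G => z.coeff ((g : G) * s)) hc
      simp only [MonoidAlgebra.coeff_sum, Finsupp.coe_finsetSum, Finset.sum_apply,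
        MonoidAlgebra.coeff_single_mul_apply] at h4
      rw [Finset.sum_eq_single g] at h4
      · rw [inv_mul_cancel_left] at h4
        rcases mul_eq_zero.1 h4 with h5 | h5
        · exact h5
        · exact absurd h5 (Finsupp.mem_support_iff.1 hs)
      · intro g' _ hg'
        by_cases hz : y.coeff ((g' : G)⁻¹ * (g * s)) = 0
        · rw [hz, mul_zero]
        · exfalso
          apply hg'
          apply Subtype.ext
          refine h2 g' g'.2 g g.2 _ (Finsupp.mem_support_iff.2 hz) s hs ?_
          rw [mul_inv_cancel_left]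
      · intro h
        exact absurd (Finset.mem_univ _) h
    rw [this, finrank_bot]
  have h5 := rk_add_ker F' y
  have h6 := rk_mono h1 y
  calc F.card ≤ F'.card * (y.coeff.support.card * y.coeff.support.card) := h3
    _ = (y.coeff.support.card * y.coeff.support.card) * rk F' y := by
        rw [mul_comm]
        congr 1
        omega
    _ ≤ _ := Nat.mul_le_mul_left _ h6

/-! ## The group ring is semiprime -/

/-- The adjoint. -/
def adj (v : QG G) : QG G := v.coeff.sum fun g r => MonoidAlgebra.single g⁻¹ r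

theorem coeff_mul_adj (v : QG G) (g : G) :
    (v * adj v).coeff g = v.coeff.sum fun h r => v.coeff (g * h) * r := by
  rw [adj, Finsupp.sum, Finset.mul_sum, MonoidAlgebra.coeff_sum, Finsupp.coe_finsetSum,
    Finset.sum_apply, Finsupp.sum]
  refine Finset.sum_congr rfl fun h _ => ?_
  rw [MonoidAlgebra.coeff_mul_single_apply, inv_inv]

theorem coeff_mul_adj_inv (v : QG G) (g : G) :
    (v * adj v).coeff g⁻¹ = (v * adj v).coeff g := by
  classical
  rw [coeff_mul_adj, coeff_mul_adj, Finsupp.sum, Finsupp.sum]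
  refine Finset.sum_bij_ne_zero (fun h _ _ => g⁻¹ * h) ?_ ?_ ?_ ?_
  · intro h _ hne
    exact Finsupp.mem_support_iff.2 (left_ne_zero_of_mul hne)
  · intro h _ _ h' _ _ heq
    exact mul_left_cancel heq
  · intro h hh hne
    refine ⟨g * h, Finsupp.mem_support_iff.2 (left_ne_zero_of_mul hne), ?_, ?_⟩
    · rw [inv_mul_cancel_left, mul_comm]
      exact hne
    · rw [inv_mul_cancel_left]
  · intro h _ _
    rw [mul_inv_cancel_left, mul_comm]

theorem coeff_one_pos {v : QG G} (hv : v ≠ 0) : 0 < (v * adj v).coeff 1 := by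
  rw [coeff_mul_adj, Finsupp.sum]
  refine Finset.sum_pos (fun h hh => ?_) ?_
  · rw [one_mul]
    exact mul_self_pos.2 (Finsupp.mem_support_iff.1 hh)
  · rw [Finsupp.support_nonempty_iff]
    exact fun h => hv (MonoidAlgebra.coeff_eq_zero.1 h)

/-- The group ring is semiprime. -/
theorem semiprime {v : QG G} (hv : v ≠ 0) : v * adj v * v ≠ 0 := by
  intro h
  set u := v * adj v with hu
  have h1 : (u * u).coeff 1 = 0 := by
    have : u * u = 0 := by
      calc u * u = (v * adj v * v) * adj v := by rw [hu]; simp only [mul_assoc]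
        _ = 0 := by rw [← hu, h, zero_mul]
    rw [this, MonoidAlgebra.coeff_zero]
    rfl
  have h2 : (u * u).coeff 1 = u.coeff.sum fun _ r => r * r := by
    rw [MonoidAlgebra.coeff_mul_apply_left]
    refine Finsupp.sum_congr fun g _ => ?_
    rw [mul_one, hu, coeff_mul_adj_inv]
  have h3 : 0 < u.coeff 1 := coeff_one_pos hv
  rw [h1, Finsupp.sum] at h2
  have h4 : 0 < ∑ g ∈ u.coeff.support, u.coeff g * u.coeff g := by
    refine Finset.sum_pos (fun g hg => mul_self_pos.2 (Finsupp.mem_support_iff.1 hg)) ?_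
    exact ⟨1, Finsupp.mem_support_iff.2 h3.ne'⟩
  exact absurd h2 h4.ne

/-! ## Uniform left ideals -/

section uni

variable {R : Type*} [Ring R]

/-- A uniform left ideal. -/
def Uni (U : Submodule R R) : Prop := U ≠ ⊥ ∧ ∀ A ≤ U, ∀ B ≤ U, A ≠ ⊥ → B ≠ ⊥ → A ⊓ B ≠ ⊥

/-- Nonzero left ideals of noetherian rings contain uniform left ideals. -/
theorem exists_uni [IsNoetherianRing R] {M : Submodule R R} (hM : M ≠ ⊥) :
    ∃ U ≤ M, Uni U := by
  have wf : WellFounded ((· > ·) : Submodule R R → Submodule R R → Prop) := wellFounded_gt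
  let S : Set (Submodule R R) := {N | N ≤ M ∧ ∃ N' ≤ M, N' ≠ ⊥ ∧ N ⊓ N' = ⊥}
  have hS : S.Nonempty := ⟨⊥, bot_le, M, le_rfl, hM, bot_inf_eq _⟩
  obtain ⟨N, ⟨hN, N', hN', h0, h1⟩, hmax⟩ := wf.has_min S hS
  refine ⟨N', hN', h0, ?_⟩
  intro A hA B hB hA0 hB0 hAB
  have hlt : N < N ⊔ A := by
    refine lt_of_le_of_ne le_sup_left fun h => hA0 ?_
    have hAN : A ≤ N := by
      rw [h]
      exact le_sup_right
    have : A ≤ N ⊓ N' := le_inf hAN hA
    rw [h1] at this
    exact le_bot_iff.1 this
  refine hmax (N ⊔ A) ⟨sup_le hN (hA.trans hN'), B, hB.trans hN', hB0, ?_⟩ hlt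
  rw [eq_bot_iff]
  rintro x ⟨hx1, hx2⟩
  obtain ⟨n, hn, a, ha, rfl⟩ := Submodule.mem_sup.1 hx1
  have hn' : n ∈ N ⊓ N' := by
    refine ⟨hn, ?_⟩
    have := N'.sub_mem (hB hx2) (hA ha)
    rwa [add_sub_cancel_right] at this
  rw [h1] at hn'
  have hn0 : n = 0 := (Submodule.mem_bot R).1 hn'
  subst hn0
  rw [zero_add] at hx2 ⊢
  have : a ∈ A ⊓ B := ⟨ha, hx2⟩
  rw [hAB] at this
  exact this

end uni

section main

variable [DecidableEq G]

/-- All elements of a uniform left ideal have many translates. -/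
theorem Uni.big [IsNoetherianRing (QG G)] {U : Submodule (QG G) (QG G)} (hU : Uni U) :
    ∃ C : ℕ, ∀ y ∈ U, y ≠ 0 → Big C y := by
  classical
  obtain ⟨x, hx, hx0⟩ := (Submodule.ne_bot_iff U).1 hU.1
  refine ⟨x.coeff.support.card * x.coeff.support.card, fun y hy hy0 => ?_⟩
  have wf : WellFounded ((· > ·) : Submodule (QG G) (QG G) → Submodule (QG G) (QG G) → Prop) :=
    wellFounded_gt
  let ann : QG G → Submodule (QG G) (QG G) := fun v =>
    LinearMap.ker (LinearMap.toSpanSingleton (QG G) (QG G) v)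
  have hann : ∀ v t, t ∈ ann v ↔ t * v = 0 := fun v t => Iff.rfl
  let S : Set (Submodule (QG G) (QG G)) :=
    {A | ∃ v : QG G, v ≠ 0 ∧ (∃ a, v = a * y) ∧ A = ann v}
  have hS : S.Nonempty := ⟨ann y, y, hy0, ⟨1, (one_mul y).symm⟩, rfl⟩
  obtain ⟨A, ⟨v, hv0, ⟨a, hva⟩, rfl⟩, hmax⟩ := wf.has_min S hS
  set w := adj v * v with hw
  have hvw : v * w ≠ 0 := by
    rw [hw, ← mul_assoc]
    exact semiprime hv0
  have hannw : ∀ t, t * (v * w) = 0 → t * v = 0 := by
    intro t ht
    by_contra hne
    have hle : ann v ≤ ann (v * w) := by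
      intro r hr
      rw [hann] at hr ⊢
      rw [← mul_assoc, hr, zero_mul]
    have hlt : ann v < ann (v * w) := lt_of_le_of_ne hle fun h => hne (by
      rw [← hann, h, hann]
      exact ht)
    refine hmax (ann (v * w)) ⟨v * w, hvw, ⟨v * adj v * a, ?_⟩, rfl⟩ hlt
    rw [hw]
    conv_lhs => rw [hva]
    conv_rhs => rw [hva]
    simp only [mul_assoc]
  -- right multiplication by `w` is injective on `U`
  have hann2 : ∀ u ∈ U, u * w = 0 → u = 0 := by
    by_contra hcon
    push Not at hcon
    obtain ⟨u, hu, huw, hu0⟩ := hcon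
    have hvU : v ∈ U := by
      rw [hva]
      exact U.smul_mem a hy
    refine hU.2 (U ⊓ ann w) inf_le_left (Submodule.span (QG G) {v}) ?_ ?_ ?_ ?_
    · rw [Submodule.span_le, Set.singleton_subset_iff]
      exact hvU
    · rw [Submodule.ne_bot_iff]
      exact ⟨u, ⟨hu, huw⟩, hu0⟩
    · rw [Ne, Submodule.span_singleton_eq_bot]
      exact hv0
    · rw [eq_bot_iff]
      rintro z ⟨⟨-, hz⟩, hzv⟩
      obtain ⟨t, rfl⟩ := Submodule.mem_span_singleton.1 hzv
      rw [smul_eq_mul] at hz ⊢
      have hz' : t * v * w = 0 := hz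
      rw [mul_assoc] at hz'
      exact (Submodule.mem_bot _).2 (hannw t hz')
  have h1 : Big (x.coeff.support.card * x.coeff.support.card) x :=
    ⟨1, fun F => by
      rw [mul_one]
      exact card_le_rk F hx0⟩
  have h2 : Big (x.coeff.support.card * x.coeff.support.card) (x * w) := by
    refine Big.of_ker (fun a ha => ?_) h1
    rw [← mul_assoc] at ha
    exact hann2 (a * x) (U.smul_mem a hx) ha
  have h3 : x * w = (x * adj v * a) * y := by
    have : w = adj v * (a * y) := by rw [← hva]
    rw [this]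
    simp only [mul_assoc]
  rw [h3] at h2
  exact h2.of_mul

/-- **All nonzero elements of a noetherian rational group ring have many translates, with one
constant.** -/
theorem exists_big [IsNoetherianRing (QG G)] : ∃ C : ℕ, ∀ y : QG G, y ≠ 0 → Big C y := by
  classical
  have wf : WellFounded ((· > ·) : Submodule (QG G) (QG G) → Submodule (QG G) (QG G) → Prop) :=
    wellFounded_gt
  let S : Set (Submodule (QG G) (QG G)) := {L | ∃ C : ℕ, ∀ y ∈ L, y ≠ 0 → Big C y}
  have hS : S.Nonempty := ⟨⊥, 0, fun y hy hy0 => absurd ((Submodule.mem_bot _).1 hy) hy0⟩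
  obtain ⟨L, ⟨C, hC⟩, hmax⟩ := wf.has_min S hS
  have hess : ∀ M : Submodule (QG G) (QG G), M ≠ ⊥ → L ⊓ M ≠ ⊥ := by
    intro M hM hLM
    obtain ⟨U, hUM, hU⟩ := exists_uni hM
    obtain ⟨C', hC'⟩ := hU.big
    have hLU : L ⊓ U = ⊥ := le_bot_iff.1 (hLM ▸ inf_le_inf_left L hUM)
    have hlt : L < L ⊔ U := by
      refine lt_of_le_of_ne le_sup_left fun h => hU.1 ?_
      have : U ≤ L := by
        rw [h]
        exact le_sup_right
      exact le_bot_iff.1 (hLU ▸ le_inf this le_rfl)
    refine hmax (L ⊔ U) ⟨max C C', fun y hy hy0 => ?_⟩ hlt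
    obtain ⟨l, hl, u, hu, rfl⟩ := Submodule.mem_sup.1 hy
    by_cases hl0 : l = 0
    · subst hl0
      rw [zero_add] at hy0 ⊢
      exact (hC' u hu hy0).mono (le_max_right _ _)
    · refine Big.of_ker (fun a ha => ?_) ((hC l hl hl0).mono (le_max_left _ _))
      rw [mul_add] at ha
      have h1 : a * l ∈ L ⊓ U := by
        refine ⟨L.smul_mem a hl, ?_⟩
        rw [eq_neg_of_add_eq_zero_left ha]
        exact U.neg_mem (U.smul_mem a hu)
      rw [hLU] at h1
      exact (Submodule.mem_bot _).1 h1
  refine ⟨C, fun y hy => ?_⟩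
  have h1 : Submodule.span (QG G) {y} ≠ ⊥ := by
    rw [Ne, Submodule.span_singleton_eq_bot]
    exact hy
  obtain ⟨z, ⟨hz1, hz2⟩, hz0⟩ := (Submodule.ne_bot_iff _).1 (hess _ h1)
  obtain ⟨r, rfl⟩ := Submodule.mem_span_singleton.1 hz2
  exact Big.of_mul (hC _ hz1 hz0)

/-! ## Finite subgroups -/

/-- The sum of the elements of a finite subgroup. -/
def nm (H : Subgroup G) [Fintype H] : QG G := ∑ h : H, MonoidAlgebra.single (h : G) (1 : ℚ)

theorem nm_coeff_one (H : Subgroup G) [Fintype H] : (nm H).coeff 1 = 1 := by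
  rw [nm, MonoidAlgebra.coeff_sum, Finsupp.coe_finsetSum, Finset.sum_apply,
    Finset.sum_eq_single (1 : H)]
  · simp
  · intro h _ hne
    rw [MonoidAlgebra.coeff_single, Finsupp.single_apply, if_neg]
    exact fun h' => hne (Subtype.ext h')
  · intro h
    exact absurd (Finset.mem_univ _) h

theorem nm_ne (H : Subgroup G) [Fintype H] : nm H ≠ 0 := by
  intro h
  have := nm_coeff_one H
  rw [h, MonoidAlgebra.coeff_zero] at this
  exact zero_ne_one this

omit [DecidableEq G] in
theorem mul_nm (H : Subgroup G) [Fintype H] (g : G) (h : H) :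
    MonoidAlgebra.single (g * h) (1 : ℚ) * nm H = MonoidAlgebra.single g (1 : ℚ) * nm H := by
  rw [nm, Finset.mul_sum, Finset.mul_sum]
  refine Fintype.sum_equiv (Equiv.mulLeft h) _ _ fun k => ?_
  rw [MonoidAlgebra.single_mul_single, MonoidAlgebra.single_mul_single, Equiv.coe_mulLeft,
    Subgroup.coe_mul, mul_assoc]

/-- The translates of the norm element. -/
theorem rk_nm (H : Subgroup G) [Fintype H] (F : Finset G) :
    Fintype.card H * rk F (nm H) ≤ (F * (Finset.univ.image ((↑) : H → G))).card := by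
  classical
  set f : G → QG G := fun g => MonoidAlgebra.single g (1 : ℚ) * nm H with hf
  have h1 : rk F (nm H) ≤ (F.image f).card := by
    rw [rk, range_ph, ← Finset.coe_image]
    exact finrank_span_finset_le_card _
  refine (Nat.mul_le_mul_left _ h1).trans ?_
  refine Finset.mul_card_image_le_card_of_maps_to (f := f) ?_ _ ?_
  · intro x hx
    obtain ⟨g, hg, y, hy, rfl⟩ := Finset.mem_mul.1 hx
    obtain ⟨h, -, rfl⟩ := Finset.mem_image.1 hy
    refine Finset.mem_image.2 ⟨g, hg, ?_⟩
    exact (mul_nm H g h).symm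
  · intro v hv
    obtain ⟨g, hg, rfl⟩ := Finset.mem_image.1 hv
    have h2 : (Finset.univ.image fun h : H => g * (h : G)).card = Fintype.card H := by
      rw [Finset.card_image_of_injective, Finset.card_univ]
      intro a b hab
      exact Subtype.ext (mul_left_cancel hab)
    rw [← h2]
    refine Finset.card_le_card ?_
    intro x hx
    obtain ⟨h, -, rfl⟩ := Finset.mem_image.1 hx
    refine Finset.mem_filter.2 ⟨Finset.mul_mem_mul hg (Finset.mem_image_of_mem _ (Finset.mem_univ h)), ?_⟩
    exact mul_nm H g h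

/-- **Given Foelner sets, the finite subgroups are bounded.** -/
theorem bounded [IsNoetherianRing (QG G)] (hF : Foel G) :
    ∃ C : ℕ, ∀ (H : Subgroup G) [Finite H], Nat.card H ≤ C := by
  classical
  obtain ⟨C, hC⟩ := exists_big (G := G)
  refine ⟨C, fun H _ => ?_⟩
  cases nonempty_fintype H
  obtain ⟨B, hB⟩ := hC (nm H) (nm_ne H)
  obtain ⟨F, hF0, hF1⟩ := hF (B * (Finset.univ.image ((↑) : H → G))) (1 / (C + 1 : ℚ))
    (by positivity)
  have h1 := hB F
  have h2 := rk_nm H (F * B)
  rw [mul_assoc] at h2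
  have h3 : (0 : ℚ) < F.card := by exact_mod_cast hF0.card_pos
  have h4 : ((Fintype.card H * F.card : ℕ) : ℚ) ≤ C * ((1 + 1 / (C + 1 : ℚ)) * F.card) := by
    have h5 : Fintype.card H * F.card ≤ C * (F * (B * (Finset.univ.image ((↑) : H → G)))).card := by
      calc Fintype.card H * F.card ≤ Fintype.card H * (C * rk (F * B) (nm H)) :=
            Nat.mul_le_mul_left _ h1
        _ = C * (Fintype.card H * rk (F * B) (nm H)) := by ring
        _ ≤ _ := Nat.mul_le_mul_left _ h2
    calc ((Fintype.card H * F.card : ℕ) : ℚ) ≤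
          ((C * (F * (B * (Finset.univ.image ((↑) : H → G)))).card : ℕ) : ℚ) := by exact_mod_cast h5
      _ = C * ((F * (B * (Finset.univ.image ((↑) : H → G)))).card : ℚ) := by push_cast; ring
      _ ≤ _ := mul_le_mul_of_nonneg_left hF1 (by positivity)
  have h6 : (Fintype.card H : ℚ) ≤ C * (1 + 1 / (C + 1 : ℚ)) := by
    refine le_of_mul_le_mul_right ?_ h3
    push_cast at h4
    linarith
  have h7 : (C : ℚ) * (1 + 1 / (C + 1 : ℚ)) < C + 1 := by
    have : (0 : ℚ) < C + 1 := by positivity
    rw [mul_add, mul_one, mul_one_div]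
    have h8 : (C : ℚ) / (C + 1) < 1 := by
      rw [div_lt_one this]
      linarith
    linarith
  rw [Nat.card_eq_fintype_card]
  have h9 : (Fintype.card H : ℚ) < C + 1 := lt_of_le_of_lt h6 h7
  have h10 : Fintype.card H < C + 1 := by exact_mod_cast h9
  omega

end main

end

end Pool.Agent.NR.H89
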