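import Mathlib

/-!
# If the integral group ring is noetherian, then the rational group ring is noetherian
-/

namespace Pool.Agent.NR.H89

variable {G : Type*} [Group G]

/-- The inclusion of the integral group ring. -/
noncomputable def inc (G : Type*) [Group G] : MonoidAlgebra ℤ G →+* MonoidAlgebra ℚ G :=
  MonoidAlgebra.mapRingHom G (Int.castRingHom ℚ)

theorem inc_single (g : G) (n : ℤ) :
    inc G (MonoidAlgebra.single g n) = MonoidAlgebra.single g (n : ℚ) := by
  rw [inc, MonoidAlgebra.mapRingHom_single, eq_intCast]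

/-- Every element has an integral multiple. -/
theorem exists_mul_mem (x : MonoidAlgebra ℚ G) :
    ∃ n : ℕ, n ≠ 0 ∧ ∃ y : MonoidAlgebra ℤ G, inc G y = (n : MonoidAlgebra ℚ G) * x := by
  induction x using MonoidAlgebra.induction_linear with
  | zero => exact ⟨1, one_ne_zero, 0, by simp⟩
  | add x y hx hy =>
    obtain ⟨n, hn, a, ha⟩ := hx
    obtain ⟨m, hm, b, hb⟩ := hy
    refine ⟨n * m, mul_ne_zero hn hm, (m : MonoidAlgebra ℤ G) * a + (n : MonoidAlgebra ℤ G) * b, ?_⟩
    rw [map_add, map_mul, map_mul, ha, hb, map_natCast, map_natCast, Nat.cast_mul, mul_add,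
      ← mul_assoc, ← mul_assoc, (Nat.cast_commute m (n : MonoidAlgebra ℚ G)).eq]
  | single g r =>
    refine ⟨r.den, r.den_nz, MonoidAlgebra.single g r.num, ?_⟩
    rw [inc_single, ← nsmul_eq_mul, MonoidAlgebra.smul_single, nsmul_eq_mul, Rat.den_mul_eq_num]

theorem natCast_mul_mem {I : Ideal (MonoidAlgebra ℚ G)} {n : ℕ} (hn : n ≠ 0)
    {x : MonoidAlgebra ℚ G} (h : (n : MonoidAlgebra ℚ G) * x ∈ I) : x ∈ I := by
  have h1 : x = algebraMap ℚ (MonoidAlgebra ℚ G) (n : ℚ)⁻¹ * ((n : MonoidAlgebra ℚ G) * x) := by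
    rw [← mul_assoc, ← map_natCast (algebraMap ℚ (MonoidAlgebra ℚ G)), ← map_mul,
      inv_mul_cancel₀ (Nat.cast_ne_zero.2 hn), map_one, one_mul]
  rw [h1]
  exact I.mul_mem_left _ h

/-- The rational group ring is noetherian. -/
theorem noeth_rat (h : IsNoetherianRing (MonoidAlgebra ℤ G)) :
    IsNoetherianRing (MonoidAlgebra ℚ G) := by
  have hmono : StrictMono (fun I : Ideal (MonoidAlgebra ℚ G) => I.comap (inc G)) := by
    intro I J hIJ
    refine lt_of_le_of_ne (Ideal.comap_mono hIJ.le) fun heq => ?_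
    refine hIJ.not_ge fun x hx => ?_
    obtain ⟨n, hn, y, hy⟩ := exists_mul_mem x
    have h1 : y ∈ J.comap (inc G) := by
      rw [Ideal.mem_comap, hy]
      exact J.mul_mem_left _ hx
    have heq' : I.comap (inc G) = J.comap (inc G) := heq
    rw [← heq', Ideal.mem_comap, hy] at h1
    exact natCast_mul_mem hn h1
  have h1 : WellFoundedGT (Ideal (MonoidAlgebra ℤ G)) := isNoetherian_iff'.1 h
  have h2 : WellFoundedGT (Ideal (MonoidAlgebra ℚ G)) := hmono.wellFoundedGT
  exact isNoetherian_iff'.2 h2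

end Pool.Agent.NR.H89
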