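import Pool.Agent.Helper12_NGR.Stmts
import Pool.Agent.Helper89_NR.Bfs
import Pool.Agent.Helper89_NR.Qn

/-!
# Squad NGR: modules BTO and QNO
-/

namespace Pool.Agent.NGR.H89

open scoped Pointwise
open Pool.Agent.NR.H89

/-- The two forms of the Foelner condition. -/
theorem foel {G : Type*} [Group G] [DecidableEq G] (h : Foelner G) : Foel G := by
  intro S ε hε
  obtain ⟨n, hn⟩ := exists_nat_gt (1 / ε)
  have hn0 : (0 : ℚ) < n := lt_trans (by positivity) hn
  obtain ⟨F, hF, hF0, hF1⟩ := h (S : Set G) S.finite_toSet n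
  lift F to Finset G using hF
  refine ⟨F, Finset.coe_nonempty.1 hF0, ?_⟩
  rw [Set.ncard_coe_finset, ← Finset.coe_mul, ← Finset.coe_union, Set.ncard_coe_finset] at hF1
  have h1 : ((F * S).card : ℚ) ≤ ((F * S ∪ F).card : ℚ) := by
    exact_mod_cast Finset.card_le_card Finset.subset_union_left
  have h2 : (n : ℚ) * ((F * S ∪ F).card : ℚ) ≤ (n + 1) * (F.card : ℚ) := by exact_mod_cast hF1
  have h3 : (n : ℚ) * ((F * S).card : ℚ) ≤ (n + 1) * (F.card : ℚ) :=
    (mul_le_mul_of_nonneg_left h1 hn0.le).trans h2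
  have h4 : 1 < ε * n := by
    rw [div_lt_iff₀ hε] at hn
    linarith
  have h5 : (n : ℚ) * ((F * S).card : ℚ) ≤ n * ((1 + ε) * F.card) := by
    refine h3.trans ?_
    have h6 : (0 : ℚ) ≤ F.card := by positivity
    nlinarith
  exact le_of_mul_le_mul_left h5 hn0

/-- BTO -/
theorem bto : BtoStmt := by
  classical
  intro G _ hN hF
  obtain ⟨C, hC⟩ := bounded (G := G) (foel hF)
  refine ⟨C, fun H hH => ?_⟩
  have : Finite H := hH
  exact hC H

/-- QNO -/
theorem qno : QnoStmt := fun h => noeth_rat h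

end Pool.Agent.NGR.H89
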